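import Mathlib

/-!
# Definitions of the Subspace project

The p-adic Subspace theorem over the rationals, with rational linear forms.
-/

namespace PoolSub

open Filter

/-- A finite family of absolute values of the field of rational numbers: the usual one (index
`inf`) and some non-archimedean ones, together with a subring `O` (the `S`-integers) on which the
product of all the absolute values is at least one. -/
structure Places (ι : Type) [Fintype ι] where
  abv : ι → AbsoluteValue ℚ ℝ
  inf : ι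
  inf_eq : ∀ x : ℚ, abv inf x = |(x : ℝ)|
  nonarch : ∀ v, v ≠ inf → ∀ x y : ℚ, abv v (x + y) ≤ max (abv v x) (abv v y)
  O : Subring ℚ
  prod_ge : ∀ a ∈ O, a ≠ 0 → 1 ≤ ∏ v, abv v a

/-- The upper exponent of `f` with respect to `H` is at most `c`. -/
def ExpLe (H f : ℕ → ℝ) (c : ℝ) : Prop :=
  ∀ ε : ℝ, 0 < ε → ∀ᶠ k in atTop, f k ≤ H k ^ (c + ε)

/-- Height of a rational number. -/
def qh (q : ℚ) : ℕ := max q.num.natAbs q.den

/-- Block-linear substitution: the vector of variables of block `h` is replaced by `M h` applied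
to it. -/
noncomputable def lsub {m : ℕ} {α : Type} [Fintype α] (M : Fin m → Matrix α α ℚ) :
    MvPolynomial (Fin m × α) ℚ →ₐ[ℚ] MvPolynomial (Fin m × α) ℚ :=
  MvPolynomial.aeval fun s => ∑ a, MvPolynomial.C (M s.1 s.2 a) * MvPolynomial.X (s.1, a)

/-- Weighted sum of the absolute values of the coefficients. -/
noncomputable def wnorm {σ : Type} (v : AbsoluteValue ℚ ℝ) (w : σ → ℝ) (P : MvPolynomial σ ℚ) :
    ℝ :=
  ∑ e ∈ P.support, v (P.coeff e) * e.prod fun s n => w s ^ n

/-- Sum of the absolute values of the coefficients of an integer polynomial. -/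
noncomputable def N1 {σ : Type} (f : MvPolynomial σ ℤ) : ℝ :=
  ∑ e ∈ f.support, |((f.coeff e : ℤ) : ℝ)|

/-- Hasse derivative in several variables. -/
noncomputable def hd {σ : Type} [Fintype σ] {R : Type} [CommRing R] (I : σ →₀ ℕ)
    (f : MvPolynomial σ R) : MvPolynomial σ R :=
  ∑ e ∈ f.support, MvPolynomial.monomial (e - I) (f.coeff e * ∏ s, ((e s).choose (I s) : R))

/-- The polynomial `p (X + β)`. -/
noncomputable def shift {m : ℕ} (β : Fin m → ℚ) (p : MvPolynomial (Fin m) ℤ) :
    MvPolynomial (Fin m) ℚ :=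
  MvPolynomial.aeval (fun h => MvPolynomial.X h + MvPolynomial.C (β h)) p

/-- Roth's lemma in `m` variables, with threshold `τ` and constants `ω`, `K`. The degrees are
increasing: `d 0` is the smallest. -/
def RothAt (m : ℕ) (τ ω K : ℝ) : Prop :=
  ∀ (d : Fin m → ℕ) (D A : ℝ) (p : MvPolynomial (Fin m) ℤ) (β : Fin m → ℚ),
    (∀ h, 1 ≤ d h) → (∀ h, (d h : ℝ) ≤ D) → (∀ h h', h < h' → (d h : ℝ) ≤ ω * d h') →
    p ≠ 0 → (∀ h, p.degreeOf h ≤ d h) → 1 ≤ A → N1 p ≤ A → 1 ≤ D →
    (∀ h, K * (Real.log A + D) ≤ d h * Real.log (qh (β h))) →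
    ∃ e ∈ (shift β p).support, ∑ h, (e h : ℝ) / d h < τ

/-- The ring of `S`-integers. -/
def SInt (S : Finset ℕ) : Subring ℚ where
  carrier := {x | ∀ p : ℕ, p.Prime → p ∉ S → padicNorm p x ≤ 1}
  mul_mem' := by
    intro a b ha hb p hp hpS
    have : Fact p.Prime := ⟨hp⟩
    rw [padicNorm.mul]
    exact mul_le_one₀ (ha p hp hpS) (padicNorm.nonneg _) (hb p hp hpS)
  one_mem' := by
    intro p hp _
    have : Fact p.Prime := ⟨hp⟩
    simp
  add_mem' := by
    intro a b ha hb p hp hpS
    have : Fact p.Prime := ⟨hp⟩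
    exact le_trans padicNorm.nonarchimedean (max_le (ha p hp hpS) (hb p hp hpS))
  zero_mem' := by
    intro p hp _
    have : Fact p.Prime := ⟨hp⟩
    simp
  neg_mem' := by
    intro a ha p hp hpS
    have : Fact p.Prime := ⟨hp⟩
    rw [padicNorm.neg]
    exact ha p hp hpS

/-- `x` is an `S`-unit. -/
def IsSUnit (S : Finset ℕ) (x : ℚ) : Prop := x ≠ 0 ∧ x ∈ SInt S ∧ x⁻¹ ∈ SInt S

/-- The absolute value of a place: `none` is the real place, `some p` the `p`-adic one. -/
noncomputable def sabv (S : Finset ℕ) (hS : ∀ p ∈ S, p.Prime) (v : Option S) :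
    AbsoluteValue ℚ ℝ :=
  match v with
  | none => Rat.AbsoluteValue.real
  | some p => haveI : Fact (p : ℕ).Prime := ⟨hS p p.2⟩; Rat.AbsoluteValue.padic (p : ℕ)

end PoolSub
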